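import Mathlib
import Pool.Agent.Lib.MP_462fed_al.Main

/-!
# Equality in the conjugate-generation bound for elements of odd order

For every prime `r > 3` we exhibit a finite nonabelian simple group `S` of order divisible by `r`
and an (inner) automorphism `x` of `S` of odd prime order with `β_{r,S}(x) = b(r) = r - 1`.
So the question has a negative answer.

The group is `S = PSL_{r-1}(p)`, where `p` is an odd prime which is a primitive root modulo `r`,
and `x` is (conjugation by) a transvection, an element of order `p`. For `r = 5` one may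
take `p = 3`, so that `S = PSL_4(3)` and `x` has order `3`.

* Fewer than `r - 1` transvections fix a common nonzero vector of the natural module, and no
  element of order `r` fixes a nonzero vector, because `p` has order `r - 1` modulo `r`.
* The `r - 1` elementary transvections `1 + E_{i,i+1}` (indices modulo `r - 1`) are conjugate
  and generate `SL_{r-1}(p)`, whose order is divisible by `r`.
-/

set_option autoImplicit false

namespace Pool.Agent.Results.MP_462fed_al.Disproof

open Matrix Matrix.SpecialLinearGroup
open Pool.Agent.Lib.MP_462fed_al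

/-- The set of all integers `m ≥ 1` such that there are `m` (not necessarily distinct) conjugates
of `x` in the group `⟨S, x⟩` which generate a group of order divisible by `r`. Here `S` is
identified with its group of inner automorphisms. The least element of this set is
`β_{r,S}(x)`. -/
def conjGenSet (S : Type) [Group S] (r : ℕ) (x : MulAut S) : Set ℕ :=
  {m | 1 ≤ m ∧ ∃ y : Fin m → MulAut S,
    (∀ i, ∃ g ∈ Subgroup.closure (Set.range (MulAut.conj : S →* MulAut S) ∪ {x}),
      y i = g * x * g⁻¹) ∧
    r ∣ Nat.card (Subgroup.closure (Set.range y))}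

/-- The number `b(r)`, for an odd prime `r`. -/
def b (r : ℕ) : ℕ := if r = 3 then 3 else r - 1

/-- The group `SL_{r-1}(p)`. -/
abbrev SLg (r p : ℕ) : Type := SpecialLinearGroup (Fin (r - 1)) (ZMod p)

/-- The group `PSL_{r-1}(p)`. -/
abbrev PSLg (r p : ℕ) : Type := ProjectiveSpecialLinearGroup (Fin (r - 1)) (ZMod p)

/-- For every prime `r > 3` there are a finite nonabelian simple group `S` with `r` dividing
`|S|` and an automorphism `x` of `S` of prime order greater than `2` such that
`β_{r,S}(x) = b(r)`. -/
theorem result : ∀ r : ℕ, r.Prime → 3 < r →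
    ∃ (S : Type) (_ : Group S) (x : MulAut S),
      Finite S ∧ IsSimpleGroup S ∧ (∃ g h : S, g * h ≠ h * g) ∧ r ∣ Nat.card S ∧
      (orderOf x).Prime ∧ 2 < orderOf x ∧ IsLeast (conjGenSet S r x) (b r) := by
  classical
  intro r hr hr3
  have : Fact r.Prime := ⟨hr⟩
  -- an odd prime which is a primitive root modulo `r`
  obtain ⟨a, ha⟩ := IsCyclic.exists_generator (α := (ZMod r)ˣ)
  have haord : orderOf a = r - 1 := by
    rw [orderOf_eq_card_of_forall_mem_zpowers ha, Nat.card_eq_fintype_card,
      ZMod.card_units_eq_totient, Nat.totient_prime hr]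
  obtain ⟨p, hp2, hpp, hpa⟩ := Nat.forall_exists_prime_gt_and_eq_mod (a := (a : ZMod r)) a.isUnit 2
  have : Fact p.Prime := ⟨hpp⟩
  have hp : orderOf (p : ZMod r) = r - 1 := by
    rw [hpa, orderOf_units, haord]
  have hn : 4 ≤ r - 1 := by
    have h4 : r ≠ 4 := by
      rintro rfl
      exact absurd hr (by decide)
    omega
  have : Nontrivial (Fin (r - 1)) := Fin.nontrivial_iff_two_le.2 (by omega)
  have hι : ∀ i j : Fin (r - 1), ∃ k, k ≠ i ∧ k ≠ j := by
    intro i j
    have h1 : ({i, j} : Finset (Fin (r - 1))) ≠ Finset.univ := by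
      intro h
      have h2 := congrArg Finset.card h
      rw [Finset.card_univ, Fintype.card_fin] at h2
      have h3 := Finset.card_le_two (a := i) (b := j)
      omega
    obtain ⟨k, hk⟩ := Finset.exists_mem_notMem_of_card_lt_card
      (s := ({i, j} : Finset (Fin (r - 1)))) (t := Finset.univ) (by
        rw [Finset.card_univ, Fintype.card_fin]
        have h3 := Finset.card_le_two (a := i) (b := j)
        omega)
    refine ⟨k, ?_⟩
    have hk2 := hk.2
    simp only [Finset.mem_insert, Finset.mem_singleton, not_or] at hk2
    exact hk2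
  have h01 : (⟨0, by omega⟩ : Fin (r - 1)) ≠ ⟨1, by omega⟩ := by
    intro h
    have := congrArg Fin.val h
    simp at this
  have h12 : (⟨1, by omega⟩ : Fin (r - 1)) ≠ ⟨2, by omega⟩ := by
    intro h
    have := congrArg Fin.val h
    simp at this
  have h02 : (⟨0, by omega⟩ : Fin (r - 1)) ≠ ⟨2, by omega⟩ := by
    intro h
    have := congrArg Fin.val h
    simp at this
  let t : SLg r p := transvection h01 1
  let q : SLg r p →* PSLg r p := QuotientGroup.mk' (Subgroup.center (SLg r p))
  have hq : ∀ g : SLg r p, q g = 1 ↔ g ∈ Subgroup.center (SLg r p) := fun g => QuotientGroup.eq_one_iff g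
  have hqs : Function.Surjective q := QuotientGroup.mk'_surjective _
  let φ : SLg r p →* MulAut (PSLg r p) := (MulAut.conj : PSLg r p →* MulAut (PSLg r p)).comp q
  have hsimple : IsSimpleGroup (PSLg r p) := isSimpleGroup_PSL hι
  have hnoncomm : ∃ g h : PSLg r p, g * h ≠ h * g := by
    refine ⟨q (transvection h01 1), q (transvection h12 1), ?_⟩
    intro h
    have h1 : q (transvection h01 1 * transvection h12 1 * (transvection h01 1)⁻¹ *
        (transvection h12 1)⁻¹) = 1 := by
      rw [map_mul, map_mul, map_mul, map_inv, map_inv, h]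
      group
    rw [← commutatorElement_def, transvection_commutator h02 h01 h12, hq,
      transvection_mem_center_iff, mul_one] at h1
    exact one_ne_zero h1
  have hinj : Function.Injective (MulAut.conj : PSLg r p →* MulAut (PSLg r p)) := by
    rw [← MonoidHom.ker_eq_bot_iff]
    rcases hsimple.eq_bot_or_eq_top_of_normal (MulAut.conj : PSLg r p →* MulAut (PSLg r p)).ker inferInstance
      with h | h
    · exact h
    · exfalso
      obtain ⟨g, k, hgk⟩ := hnoncomm
      apply hgk
      have h1 : g ∈ (MulAut.conj : PSLg r p →* MulAut (PSLg r p)).ker := by rw [h]; trivial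
      rw [MonoidHom.mem_ker] at h1
      have h2 := congrArg (fun f : MulAut (PSLg r p) => f k) h1
      simp only [MulAut.conj_apply, MulAut.one_apply] at h2
      rw [mul_inv_eq_iff_eq_mul] at h2
      exact h2
  have hφ1 : ∀ g : SLg r p, φ g = 1 → g ∈ Subgroup.center (SLg r p) := by
    intro g hg
    rw [← hq]
    apply hinj
    rw [map_one]
    exact hg
  -- the order of `x`
  have htp : t ^ p = 1 := by
    change transvection h01 1 ^ p = 1
    rw [transvection_pow]
    simp
  have hx : orderOf (φ t) = p := by
    apply orderOf_eq_prime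
    · rw [← map_pow, htp, map_one]
    · intro h
      have h1 := hφ1 t h
      rw [show t = transvection h01 1 from rfl, transvection_mem_center_iff] at h1
      exact one_ne_zero h1
  obtain ⟨g0, hg0r, hg0c⟩ := exists_order (p := p) (r := r) hr3 hp
  have hclosure : Subgroup.closure (Set.range (MulAut.conj : PSLg r p →* MulAut (PSLg r p)) ∪ {φ t}) = φ.range := by
    apply le_antisymm
    · rw [Subgroup.closure_le]
      rintro f (⟨s, rfl⟩ | hf)
      · obtain ⟨A, rfl⟩ := hqs s
        exact ⟨A, rfl⟩
      · rw [Set.mem_singleton_iff.1 hf]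
        exact ⟨t, rfl⟩
    · rintro f ⟨A, rfl⟩
      exact Subgroup.subset_closure (Or.inl ⟨q A, rfl⟩)
  have hb : b r = r - 1 := by
    unfold b
    rw [if_neg (by omega)]
  refine ⟨PSLg r p, inferInstance, φ t, ?_, hsimple, hnoncomm, ?_, ?_, ?_, ?_, ?_⟩
  · infer_instance
  · have h1 : orderOf (q g0) = r := by
      apply orderOf_eq_prime
      · rw [← map_pow, hg0r, map_one]
      · rw [ne_eq, hq]
        exact hg0c
    have h2 := orderOf_dvd_natCard (q g0)
    rw [h1] at h2
    exact h2
  · rw [hx]; exact hpp
  · rw [hx]; exact hp2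
  · -- `r - 1` transvections suffice
    rw [hb]
    refine ⟨by omega, fun i => φ (transvection (nxt_ne (by omega) i) 1), ?_, ?_⟩
    · intro i
      obtain ⟨c, hc⟩ := isConj_iff.1 (isConj_all (F := ZMod p) hι h01 (nxt_ne (by omega) i))
      refine ⟨φ c, ?_, ?_⟩
      · rw [hclosure]
        exact ⟨c, rfl⟩
      · change φ (transvection (nxt_ne (by omega) i) 1) = _
        rw [← hc, map_mul, map_mul, map_inv]
    · have h1 : Subgroup.closure (Set.range fun i : Fin (r - 1) =>
          φ (transvection (nxt_ne (by omega) i) 1)) = φ.range := by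
        have h2 : Subgroup.closure (Set.range fun i : Fin (r - 1) =>
            (transvection (nxt_ne (by omega) i) (1 : ZMod p) : SLg r p)) = ⊤ := by
          apply cyclic_generate (by omega)
          intro i
          exact Subgroup.subset_closure ⟨i, rfl⟩
        rw [MonoidHom.range_eq_map, ← h2, MonoidHom.map_closure, ← Set.range_comp]
        rfl
      rw [h1]
      have h3 : orderOf (⟨φ g0, ⟨g0, rfl⟩⟩ : φ.range) = r := by
        apply orderOf_eq_prime
        · apply Subtype.ext
          change (φ g0) ^ r = 1
          rw [← map_pow, hg0r, map_one]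
        · intro h
          apply hg0c
          apply hφ1
          exact congrArg Subtype.val h
      have h4 := orderOf_dvd_natCard (⟨φ g0, ⟨g0, rfl⟩⟩ : φ.range)
      rw [h3] at h4
      exact h4
  · -- fewer transvections do not suffice
    rw [hb]
    rintro m ⟨hm1, y, hy, hdvd⟩
    by_contra hlt
    push Not at hlt
    rw [hclosure] at hy
    have hy' : ∀ i, ∃ A : SLg r p, y i = φ (A * t * A⁻¹) := by
      intro i
      obtain ⟨g, ⟨A, rfl⟩, hg⟩ := hy i
      exact ⟨A, by rw [hg, map_mul, map_mul, map_inv]⟩
    choose A hA using hy'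
    obtain ⟨v, hv0, hv⟩ := exists_common_fixed hlt h01 A
    let T : Subgroup (SLg r p) := Subgroup.closure (Set.range fun i => A i * t * (A i)⁻¹)
    have hT : Subgroup.closure (Set.range y) = T.map φ := by
      rw [MonoidHom.map_closure, ← Set.range_comp]
      congr 2
      funext i
      exact hA i
    rw [hT] at hdvd
    have hdvd2 : r ∣ Nat.card T := hdvd.trans (T.card_map_dvd φ)
    obtain ⟨g, hg⟩ := exists_prime_orderOf_dvd_card' r hdvd2
    have hTle : T ≤ MulAction.stabilizer (SLg r p) v := by
      rw [Subgroup.closure_le]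
      rintro _ ⟨i, rfl⟩
      exact hv i
    have hgv : (g : SLg r p) • v = v := hTle g.2
    have hgr : (g : SLg r p) ^ r = 1 := by
      have h1 : g ^ r = 1 := orderOf_dvd_iff_pow_eq_one.1 (by rw [hg])
      have h2 := congrArg Subtype.val h1
      exact h2
    have hg1 : (g : SLg r p) = 1 := eq_one_of_fix hp (g : SLg r p) hgr v hv0 hgv
    have hg2 : g = 1 := Subtype.ext hg1
    rw [hg2, orderOf_one] at hg
    omega

end Pool.Agent.Results.MP_462fed_al.Disproof
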